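import Mathlib

/-!
A 15-element ordered set of width at least five in which every element has a chain cutset.
-/

namespace Pool.Agent.Results.MP_79bc23_co.WidthFive

/-- `S` is a cutset of `P`: it meets every maximal chain of `P`. -/
def IsCutset {P : Type*} [PartialOrder P] (S : Set P) : Prop :=
  ∀ C : Set P, IsMaxChain (· ≤ ·) C → (S ∩ C).Nonempty

/-- `K` is a chain cutset for the element `x`: `K` is a chain, all elements of `K` are
incomparable to `x`, and `K ∪ {x}` is a cutset of `P`. -/
def IsChainCutsetFor {P : Type*} [PartialOrder P] (x : P) (K : Set P) : Prop :=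
  IsChain (· ≤ ·) K ∧ (∀ y ∈ K, ¬ y ≤ x ∧ ¬ x ≤ y) ∧ IsCutset (insert x K)

/-- A reachability criterion for cutsets in finite ordered sets. -/
theorem cutset_of_labelling {P : Type*} [PartialOrder P] [Finite P] [Nonempty P] (S : Set P)
    (R : P → Prop)
    (ha : ∀ y, (∀ z, ¬ z < y) → y ∉ S → R y)
    (hb : ∀ y z, R y → y < z → (∀ w, y < w → ¬ w < z) → z ∉ S → R z)
    (hc : ∀ y, R y → ∃ z, y < z) : IsCutset S := by
  intro C hC
  by_contra hne
  rw [Set.not_nonempty_iff_eq_empty] at hne
  have hS : ∀ y ∈ C, y ∉ S := by
    intro y hy hyS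
    have : y ∈ S ∩ C := ⟨hyS, hy⟩
    rw [hne] at this
    exact this
  have key : ∀ w, (∀ z ∈ C, z ≤ w ∨ w ≤ z) → w ∈ C := by
    intro w hw
    have h1 : IsChain (· ≤ ·) (insert w C) := by
      apply hC.1.insert
      intro b hb _
      exact (hw b hb).symm
    have h2 := hC.2 h1 (Set.subset_insert _ _)
    rw [h2]
    exact Set.mem_insert _ _
  have tot : ∀ a ∈ C, ∀ b ∈ C, a ≤ b ∨ b ≤ a := by
    intro a ha b hb
    exact hC.1.total ha hb
  have hR : ∀ y, y ∈ C → R y := by
    intro y
    induction y using (wellFounded_lt (α := P)).induction with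
    | _ y ih =>
      intro hy
      by_cases hmin : ∀ z, ¬ z < y
      · exact ha y hmin (hS y hy)
      · push Not at hmin
        obtain ⟨z0, hz0⟩ := hmin
        have hex : ∃ z ∈ C, z < y := by
          by_contra hno
          push Not at hno
          have : z0 ∈ C := by
            apply key
            intro z hz
            right
            rcases tot z hz y hy with h | h
            · rcases h.lt_or_eq with h' | h'
              · exact absurd h' (hno z hz)
              · rw [h']; exact hz0.le
            · exact hz0.le.trans h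
          exact hno z0 this hz0
        have hfin : (C ∩ {z | z < y}).Finite := Set.toFinite _
        obtain ⟨z, hz⟩ := hfin.exists_maximal (by
          obtain ⟨z, hz, hzy⟩ := hex
          exact ⟨z, hz, hzy⟩)
        have hzC : z ∈ C := hz.prop.1
        have hzy : z < y := hz.prop.2
        have hcov : ∀ w, z < w → ¬ w < y := by
          intro w hzw hwy
          have hw : w ∈ C := by
            apply key
            intro v hv
            rcases tot v hv y hy with h | h
            · rcases h.lt_or_eq with h' | h'
              · left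
                rcases tot v hv z hzC with h2 | h2
                · exact h2.trans hzw.le
                · exact (hz.le_of_ge ⟨hv, h'⟩ h2).trans hzw.le
              · right; rw [h']; exact hwy.le
            · right; exact hwy.le.trans h
          exact absurd (hz.le_of_ge ⟨hw, hwy⟩ hzw.le) (not_le_of_gt hzw)
        exact hb z y (ih z hzy hzC) hzy hcov (hS y hy)
  have hCne : C.Nonempty := by
    by_contra h
    rw [Set.not_nonempty_iff_eq_empty] at h
    obtain ⟨p⟩ := ‹Nonempty P›
    have : p ∈ C := by
      apply key
      intro z hz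
      rw [h] at hz
      exact absurd hz (Set.notMem_empty _)
    rw [h] at this
    exact this
  obtain ⟨m, hm⟩ := (Set.toFinite C).exists_maximal hCne
  obtain ⟨z, hz⟩ := hc m (hR m hm.prop)
  have hzC : z ∈ C := by
    apply key
    intro v hv
    left
    rcases tot v hv m hm.prop with h | h
    · exact h.trans hz.le
    · exact (hm.le_of_ge hv h).trans hz.le
  exact absurd (hm.le_of_ge hzC hz.le) (not_le_of_gt hz)

/-- The underlying set of the example: fifteen points `0, …, 14` (the usual order of `Fin 15`
is not used). -/
def Q : Type := Fin 15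

instance : DecidableEq Q := inferInstanceAs (DecidableEq (Fin 15))
instance : Fintype Q := inferInstanceAs (Fintype (Fin 15))
instance : Nonempty Q := inferInstanceAs (Nonempty (Fin 15))

/-- Binary code of the up-set of each point. -/
def up : Fin 15 → ℕ :=
  ![32373, 32734, 31316, 32136, 27216, 29728, 10304, 10368, 29952, 16896, 29696, 10240, 28672,
    8192, 16384]

/-- Binary code of a chain cutset for each point. -/
def cut : Fin 15 → ℕ :=
  ![2, 1, 1032, 5, 4104, 6, 20488, 4100, 2053, 12288, 2052, 20480, 2064, 16384, 8192]

/-- Binary code of the set of points reachable from below while avoiding the cutset. -/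
def reach : Fin 15 → ℕ :=
  ![0, 0, 35, 2, 1063, 1, 1591, 1323, 138, 3583, 427, 2047, 1455, 8191, 8191]

/-- `a` is below or equal to `b`. -/
def leQ (a b : Q) : Prop := (up a).testBit (Fin.val b) = true

instance (a b : Q) : Decidable (leQ a b) := inferInstanceAs (Decidable (_ = true))

theorem leQ_refl : ∀ a : Q, leQ a a := by decide +kernel
theorem leQ_trans : ∀ a b c : Q, leQ a b → leQ b c → leQ a c := by decide +kernel
theorem leQ_antisymm : ∀ a b : Q, leQ a b → leQ b a → a = b := by decide +kernel

instance : PartialOrder Q where
  le := leQ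
  le_refl := leQ_refl
  le_trans := leQ_trans
  le_antisymm := leQ_antisymm

instance : DecidableLE Q := fun a b => inferInstanceAs (Decidable (leQ a b))
instance : DecidableLT Q := fun a b => decidable_of_iff (leQ a b ∧ ¬ leQ b a) Iff.rfl

/-- The chain cutset of the point `x`. -/
def K (x : Q) : Set Q := {y | (cut x).testBit (Fin.val y) = true}

instance (x y : Q) : Decidable (y ∈ K x) := inferInstanceAs (Decidable (_ = true))

theorem K_chain : ∀ x a b : Q, a ∈ K x → b ∈ K x → a ≤ b ∨ b ≤ a := by decide +kernel

theorem K_incomp : ∀ x y : Q, y ∈ K x → ¬ y ≤ x ∧ ¬ x ≤ y := by decide +kernel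

theorem reach_min : ∀ x y : Q, (∀ z, ¬ z < y) → ¬ (y = x ∨ y ∈ K x) →
    (reach x).testBit (Fin.val y) = true := by decide +kernel

theorem reach_step : ∀ x y z : Q, (reach x).testBit (Fin.val y) = true → y < z →
    (∀ w, y < w → ¬ w < z) → ¬ (z = x ∨ z ∈ K x) →
    (reach x).testBit (Fin.val z) = true := by decide +kernel

theorem reach_not_max : ∀ x y : Q, (reach x).testBit (Fin.val y) = true → ∃ z, y < z := by
  decide +kernel

theorem K_cutset (x : Q) : IsChainCutsetFor x (K x) := by
  refine ⟨?_, K_incomp x, ?_⟩
  · intro a ha b hb _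
    exact K_chain x a b ha hb
  · refine cutset_of_labelling _ (fun y => (reach x).testBit (Fin.val y) = true)
      (fun y h1 h2 => reach_min x y h1 h2)
      (fun y z h1 h2 h3 h4 => reach_step x y z h1 h2 h3 h4)
      (fun y h => reach_not_max x y h)

/-- The five-element antichain `{5, 6, 7, 8, 9}`. -/
def A : Finset Q := {(5 : Fin 15), (6 : Fin 15), (7 : Fin 15), (8 : Fin 15), (9 : Fin 15)}

theorem A_anti : ∀ a ∈ A, ∀ b ∈ A, a ≠ b → ¬ a ≤ b := by decide +kernel

/-- There is a finite ordered set in which every element has a chain cutset and which contains an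
antichain of five elements. -/
theorem result : ∃ (P : Type) (_ : PartialOrder P), Finite P ∧
    (∀ x : P, ∃ K : Set P, IsChainCutsetFor x K) ∧
    ∃ A : Finset P, A.card = 5 ∧ IsAntichain (· ≤ ·) (A : Set P) := by
  refine ⟨Q, inferInstance, inferInstance, fun x => ⟨K x, K_cutset x⟩, A, by decide +kernel, ?_⟩
  intro a ha b hb hab
  exact A_anti a ha b hb hab

end Pool.Agent.Results.MP_79bc23_co.WidthFive
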